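import Mathlib
import Pool.Agent.H20.SW.Approx

/-!
# Rich: from the bound for zeta sums to Richert's bound for `ζ`

Dyadic blocks `[A, B]`, `B ≤ 2A`, `A ≤ N = ⌈t²⌉`: with `δ = 1 - σ`, `a = log A/log t`,
`A^(-σ) A^(1-cτ²) ≤ t^(a(δ - c a²)) ≤ t^(δ^(3/2)/√c)` for `A ≤ t`, and `≤ A^(δ-c)` for `A > t`, which is
`≤ 1` if `δ ≤ c` and `≤ t^(3δ) ≤ t^(3 δ^(3/2)/√c)` otherwise.
(The private lemmas are those of `H76/PS/ZNear1.lean`.)
-/

set_option autoImplicit false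

open Complex

namespace Pool.Agent.H48.VR

/-- the bound from `zeta₁_approx` -/
private lemma ri_approx {s : ℂ} (hs : 0 < s.re) (hs1 : s ≠ 1) {N : ℕ} (hN : 1 ≤ N) :
    ‖riemannZeta s‖ ≤ ‖∑ i ∈ Finset.Ico 1 N, (i : ℂ) ^ (-s)‖ + (N : ℝ) ^ (1 - s.re) / ‖s - 1‖ +
      (‖s‖ / s.re) * (N : ℝ) ^ (-s.re) := by
  have h1 := Pool.Agent.SW.zeta₁_approx hs hN
  have hs0 : 0 < ‖s - 1‖ := norm_pos_iff.2 (sub_ne_zero.2 hs1)
  have hN0 : (0 : ℝ) < N := by exact_mod_cast hN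
  have h2 : ‖(N : ℂ) ^ (1 - s)‖ = (N : ℝ) ^ (1 - s.re) := by
    have := norm_cpow_eq_rpow_re_of_pos hN0 (1 - s)
    simpa using this
  have h3 : riemannZeta₁ s = (s - 1) * riemannZeta s := by
    rw [riemannZeta_eq_inv_sub_mul hs1, ← mul_assoc, mul_inv_cancel₀ (sub_ne_zero.2 hs1), one_mul]
  rw [h3] at h1
  have h4 : (s - 1) * riemannZeta s = ((s - 1) * riemannZeta s -
      ((s - 1) * ∑ i ∈ Finset.Ico 1 N, (i : ℂ) ^ (-s) + (N : ℂ) ^ (1 - s))) +
      (s - 1) * ∑ i ∈ Finset.Ico 1 N, (i : ℂ) ^ (-s) + (N : ℂ) ^ (1 - s) := by ring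
  have h5 : ‖s - 1‖ * ‖riemannZeta s‖ ≤ ‖s - 1‖ * (‖∑ i ∈ Finset.Ico 1 N, (i : ℂ) ^ (-s)‖ +
      (N : ℝ) ^ (1 - s.re) / ‖s - 1‖ + (‖s‖ / s.re) * (N : ℝ) ^ (-s.re)) := by
    rw [← norm_mul, h4]
    refine (norm_add₃_le).trans ?_
    rw [norm_mul, h2]
    have h6 : ‖s - 1‖ * ((N : ℝ) ^ (1 - s.re) / ‖s - 1‖) = (N : ℝ) ^ (1 - s.re) := by
      field_simp
    rw [mul_add, mul_add, h6]
    nlinarith
  exact le_of_mul_le_mul_left h5 hs0

private lemma ri_norm {s : ℂ} {i : ℕ} (hi : 1 ≤ i) : ‖(i : ℂ) ^ (-s)‖ = (i : ℝ) ^ (-s.re) := by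
  have := norm_cpow_eq_rpow_re_of_pos (x := (i : ℝ)) (by exact_mod_cast hi) (-s)
  simpa using this

private lemma ri_harm (M : ℕ) :
    ∑ i ∈ Finset.Ico 1 M, ((i : ℝ))⁻¹ ≤ 1 + Real.log M := by
  have h1 := harmonic_le_one_add_log M
  refine le_trans ?_ h1
  rw [harmonic_eq_sum_Icc]
  push_cast
  apply Finset.sum_le_sum_of_subset_of_nonneg
  · intro i hi
    simp only [Finset.mem_Ico, Finset.mem_Icc] at hi ⊢
    omega
  · intro i _ _
    positivity

/-- the head -/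
private lemma ri_head {s : ℂ} (hσ : s.re ≤ 1) (M : ℕ) (hM : 1 ≤ M) :
    ‖∑ i ∈ Finset.Ico 1 M, (i : ℂ) ^ (-s)‖ ≤ (M : ℝ) ^ (1 - s.re) * (1 + Real.log M) := by
  refine (norm_sum_le _ _).trans ?_
  have h1 : ∀ i ∈ Finset.Ico 1 M, ‖(i : ℂ) ^ (-s)‖ ≤ (M : ℝ) ^ (1 - s.re) * ((i : ℝ))⁻¹ := by
    intro i hi
    obtain ⟨hi1, hiM⟩ := Finset.mem_Ico.1 hi
    have hi0 : (0 : ℝ) < i := by exact_mod_cast hi1
    rw [ri_norm hi1]
    have h2 : (i : ℝ) ^ (-s.re) = (i : ℝ) ^ (1 - s.re) * ((i : ℝ))⁻¹ := by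
      rw [← Real.rpow_neg_one (i : ℝ), ← Real.rpow_add hi0]
      congr 1
      ring
    rw [h2]
    apply mul_le_mul_of_nonneg_right _ (by positivity)
    apply Real.rpow_le_rpow hi0.le _ (by linarith)
    exact_mod_cast hiM.le
  refine (Finset.sum_le_sum h1).trans ?_
  rw [← Finset.mul_sum]
  exact mul_le_mul_of_nonneg_left (ri_harm M) (by positivity)

/-- the case `σ ≥ 1` -/
private lemma ri_right {s : ℂ} (hσ : 1 ≤ s.re) (M : ℕ) (hM : 1 ≤ M) :
    ‖∑ i ∈ Finset.Ico 1 M, (i : ℂ) ^ (-s)‖ ≤ 1 + Real.log M := by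
  refine (norm_sum_le _ _).trans ?_
  have h1 : ∀ i ∈ Finset.Ico 1 M, ‖(i : ℂ) ^ (-s)‖ ≤ ((i : ℝ))⁻¹ := by
    intro i hi
    obtain ⟨hi1, hiM⟩ := Finset.mem_Ico.1 hi
    rw [ri_norm hi1, ← Real.rpow_neg_one (i : ℝ)]
    apply Real.rpow_le_rpow_of_exponent_le (by exact_mod_cast hi1)
    linarith
  exact (Finset.sum_le_sum h1).trans (ri_harm M)

/-- Abel summation with decreasing weights -/
private lemma ri_abel (a : ℕ → ℂ) (w : ℕ → ℝ) {M : ℝ} {A B : ℕ} (hAB : A ≤ B)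
    (hw : ∀ n, A ≤ n → w (n + 1) ≤ w n) (hw0 : ∀ n, A ≤ n → 0 ≤ w n)
    (hg : ∀ m, A ≤ m → m ≤ B → ‖∑ n ∈ Finset.Icc A m, a n‖ ≤ M) :
    ‖∑ n ∈ Finset.Icc A B, (w n : ℂ) * a n‖ ≤ w A * M := by
  have key : ‖∑ n ∈ Finset.Icc A B, (w n : ℂ) * a n -
      (w B : ℂ) * ∑ n ∈ Finset.Icc A B, a n‖ ≤ (w A - w B) * M := by
    induction B, hAB using Nat.le_induction with
    | base => simp
    | succ B hAB ih =>
      have ih' := ih (fun m h1 h2 => hg m h1 (by omega))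
      rw [← Finset.insert_Icc_right_eq_Icc_add_one (by omega : A ≤ B + 1),
        Finset.sum_insert (by simp), Finset.sum_insert (by simp)]
      have e : (w (B + 1) : ℂ) * a (B + 1) + ∑ n ∈ Finset.Icc A B, (w n : ℂ) * a n -
          (w (B + 1) : ℂ) * (a (B + 1) + ∑ n ∈ Finset.Icc A B, a n) =
          (∑ n ∈ Finset.Icc A B, (w n : ℂ) * a n - (w B : ℂ) * ∑ n ∈ Finset.Icc A B, a n) +
          (((w B - w (B + 1) : ℝ) : ℂ)) * ∑ n ∈ Finset.Icc A B, a n := by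
        push_cast
        ring
      rw [e]
      have h1 : ‖(((w B - w (B + 1) : ℝ) : ℂ)) * ∑ n ∈ Finset.Icc A B, a n‖ ≤
          (w B - w (B + 1)) * M := by
        rw [norm_mul, Complex.norm_real, Real.norm_eq_abs,
          abs_of_nonneg (by linarith [hw B hAB])]
        exact mul_le_mul_of_nonneg_left (hg B hAB (by omega)) (by linarith [hw B hAB])
      refine (norm_add_le _ _).trans ?_
      linarith
  have h1 : ‖(w B : ℂ) * ∑ n ∈ Finset.Icc A B, a n‖ ≤ w B * M := by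
    rw [norm_mul, Complex.norm_real, Real.norm_eq_abs, abs_of_nonneg (hw0 B hAB)]
    exact mul_le_mul_of_nonneg_left (hg B hAB le_rfl) (hw0 B hAB)
  calc ‖∑ n ∈ Finset.Icc A B, (w n : ℂ) * a n‖
      = ‖(∑ n ∈ Finset.Icc A B, (w n : ℂ) * a n - (w B : ℂ) * ∑ n ∈ Finset.Icc A B, a n) +
          (w B : ℂ) * ∑ n ∈ Finset.Icc A B, a n‖ := by rw [sub_add_cancel]
    _ ≤ (w A - w B) * M + w B * M := (norm_add_le _ _).trans (add_le_add key h1)
    _ = w A * M := by ring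

/-- one block -/
private lemma ri_block {s : ℂ} (hσ : 0 ≤ s.re) {M : ℝ} {A B : ℕ} (hA : 1 ≤ A) (hAB : A ≤ B)
    (hg : ∀ m, A ≤ m → m ≤ B → ‖∑ n ∈ Finset.Icc A m, (n : ℂ) ^ (-(s.im * I))‖ ≤ M) :
    ‖∑ n ∈ Finset.Icc A B, (n : ℂ) ^ (-s)‖ ≤ (A : ℝ) ^ (-s.re) * M := by
  have h1 := ri_abel (fun n => (n : ℂ) ^ (-(s.im * I))) (fun n => (n : ℝ) ^ (-s.re)) hAB
    (by
      intro n hn
      have hn0 : (0 : ℝ) < n := by
        have : 0 < n := by omega
        exact_mod_cast this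
      apply Real.rpow_le_rpow_of_nonpos hn0 _ (by linarith)
      push_cast
      linarith)
    (fun n _ => by positivity) hg
  refine le_trans (le_of_eq ?_) h1
  congr 1
  apply Finset.sum_congr rfl
  intro n hn
  have hn1 : 1 ≤ n := hA.trans (Finset.mem_Icc.mp hn).1
  have hn0 : (n : ℂ) ≠ 0 := by
    have : n ≠ 0 := by omega
    exact_mod_cast this
  have h2 : (((n : ℝ) ^ (-s.re) : ℝ) : ℂ) = (n : ℂ) ^ ((-s.re : ℝ) : ℂ) := by
    rw [Complex.ofReal_cpow (by positivity)]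
    simp
  rw [h2, ← Complex.cpow_add _ _ hn0]
  congr 1
  have h3 := Complex.re_add_im s
  push_cast
  linear_combination h3

/-- the dyadic decomposition -/
private lemma ri_dyadic (f : ℕ → ℂ) {D : ℝ} (hD : 0 ≤ D) {A0 N : ℕ}
    (h : ∀ A B : ℕ, A0 ≤ A → A ≤ B → B ≤ 2 * A → A ≤ N → ‖∑ n ∈ Finset.Icc A B, f n‖ ≤ D) :
    ∀ j m : ℕ, m ≤ 2 ^ j * A0 → m ≤ N → ‖∑ n ∈ Finset.Ico A0 m, f n‖ ≤ j * D := by
  intro j
  induction j with
  | zero =>
    intro m hm _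
    have : Finset.Ico A0 m = ∅ := Finset.Ico_eq_empty (by omega)
    rw [this]
    simp
  | succ j ih =>
    intro m hm hmN
    rcases Nat.lt_or_ge (2 ^ j * A0) m with h1 | h1
    · have hA : A0 ≤ 2 ^ j * A0 := Nat.le_mul_of_pos_left _ (by positivity)
      rw [← Finset.sum_Ico_consecutive f hA h1.le]
      have h2 := ih (2 ^ j * A0) le_rfl (by omega)
      have h3 : Finset.Ico (2 ^ j * A0) m = Finset.Icc (2 ^ j * A0) (m - 1) := by
        ext x
        simp only [Finset.mem_Ico, Finset.mem_Icc]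
        omega
      have h5 : 2 ^ (j + 1) * A0 = 2 * (2 ^ j * A0) := by ring
      have h4 := h (2 ^ j * A0) (m - 1) hA (by omega) (by omega) (by omega)
      rw [h3]
      refine (norm_add_le _ _).trans ?_
      push_cast
      linarith
    · refine (ih m h1 hmN).trans ?_
      push_cast
      linarith

private lemma ri_log2 : (69 / 100 : ℝ) ≤ Real.log 2 := by
  have := Real.log_two_gt_d9
  linarith

/-- the exponent inequality for one block -/
private lemma ri_exp {c δ t A : ℝ} (hc : 0 < c) (hδ : 0 < δ) (hδ2 : δ ≤ 1 / 2) (ht : 2 ≤ t)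
    (hA : 1 ≤ A) (hA2 : A ≤ t ^ (3 : ℝ)) :
    A ^ (δ - c * (min 1 (Real.log A / Real.log t)) ^ 2) ≤ t ^ (3 / √c * δ ^ (3 / 2 : ℝ)) := by
  have ht0 : 0 < t := by linarith
  have hA0 : 0 < A := by linarith
  have hlt : 0 < Real.log t := Real.log_pos (by linarith)
  have hlA : 0 ≤ Real.log A := Real.log_nonneg hA
  have hsc : 0 < √c := Real.sqrt_pos.2 hc
  have hsc2 : √c * √c = c := Real.mul_self_sqrt hc.le
  have hδ3 : δ ^ (3 / 2 : ℝ) = δ * √δ := by
    rw [show (3 / 2 : ℝ) = 1 + 1 / 2 by norm_num, Real.rpow_add hδ, Real.rpow_one,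
      Real.sqrt_eq_rpow]
  have hsd : 0 < √δ := Real.sqrt_pos.2 hδ
  have hsd2 : √δ * √δ = δ := Real.mul_self_sqrt hδ.le
  rw [Real.rpow_def_of_pos hA0, Real.rpow_def_of_pos ht0, Real.exp_le_exp, hδ3]
  obtain ⟨a, ha⟩ : ∃ a, a = Real.log A / Real.log t := ⟨_, rfl⟩
  have haA : Real.log A = a * Real.log t := by rw [ha]; field_simp
  have ha0 : 0 ≤ a := by rw [ha]; positivity
  have ha3 : a ≤ 3 := by
    rw [ha, div_le_iff₀ hlt]
    have := Real.log_le_log hA0 hA2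
    rwa [Real.log_rpow ht0] at this
  rw [← ha, haA]
  have key : a * (δ - c * min 1 a ^ 2) ≤ 3 / √c * (δ * √δ) := by
    rcases le_or_gt δ (c * min 1 a ^ 2) with h1 | h1
    · have : a * (δ - c * min 1 a ^ 2) ≤ 0 := mul_nonpos_of_nonneg_of_nonpos ha0 (by linarith)
      refine this.trans (by positivity)
    · -- `c min(1,a)^2 < δ`, so `√c min(1,a) < √δ`
      have hm0 : 0 ≤ min 1 a := le_min (by norm_num) ha0
      have h2 : √c * min 1 a < √δ := by
        by_contra h3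
        push Not at h3
        have : √δ * √δ ≤ (√c * min 1 a) * (√c * min 1 a) :=
          mul_le_mul h3 h3 hsd.le (by positivity)
        rw [hsd2] at this
        have h4 : (√c * min 1 a) * (√c * min 1 a) = c * min 1 a ^ 2 := by
          linear_combination min 1 a ^ 2 * hsc2
        linarith
      have h5 : a ≤ 3 * min 1 a := by
        rcases le_total a 1 with h6 | h6
        · rw [min_eq_right h6]; linarith
        · rw [min_eq_left h6]; linarith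
      have h7 : a * (δ - c * min 1 a ^ 2) ≤ a * δ := by
        apply mul_le_mul_of_nonneg_left _ ha0
        have : 0 ≤ c * min 1 a ^ 2 := by positivity
        linarith
      have h8 : a * √c ≤ 3 * √δ := by nlinarith
      have h9 : a ≤ 3 / √c * √δ := by
        rw [div_mul_eq_mul_div, le_div_iff₀ hsc]
        exact h8
      calc a * (δ - c * min 1 a ^ 2) ≤ a * δ := h7
        _ ≤ 3 / √c * √δ * δ := mul_le_mul_of_nonneg_right h9 hδ.le
        _ = 3 / √c * (δ * √δ) := by ring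
  calc a * Real.log t * (δ - c * min 1 a ^ 2) = Real.log t * (a * (δ - c * min 1 a ^ 2)) := by ring
    _ ≤ Real.log t * (3 / √c * (δ * √δ)) := mul_le_mul_of_nonneg_left key hlt.le

theorem richert_of {c C : ℝ} (hc : 0 < c) (hc2 : c ≤ 1 / 2) (hC : 0 < C)
    (hz : ∀ (u : ℝ) (A B : ℕ), 1 ≤ A → A ≤ B → B ≤ 2 * A → 2 ≤ |u| →
      ‖∑ n ∈ Finset.Icc A B, (n : ℂ) ^ (-(u * I))‖ ≤
        C * ((A : ℝ) ^ (1 - c * (min 1 (Real.log A / Real.log |u|)) ^ 2) + A / |u|)) :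
    ∃ B C' : ℝ, 1 ≤ B ∧ 1 ≤ C' ∧ ∀ s : ℂ, 1 / 2 ≤ s.re → 2 ≤ |s.im| →
    ‖riemannZeta s‖ ≤ C' * |s.im| ^ (B * max (1 - s.re) 0 ^ (3 / 2 : ℝ)) * Real.log |s.im| := by
  have hsc : 0 < √c := Real.sqrt_pos.2 hc
  have hsc1 : √c ≤ 1 := by
    rw [Real.sqrt_le_one]
    linarith
  refine ⟨3 / √c, 16 + 18 * C, ?_, by linarith, ?_⟩
  · rw [le_div_iff₀ hsc]
    linarith
  intro s hs ht
  obtain ⟨t, htdef⟩ : ∃ t : ℝ, t = |s.im| := ⟨_, rfl⟩
  rw [← htdef] at ht ⊢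
  have hσ0 : 0 < s.re := by linarith
  have ht0 : 0 < t := by linarith
  have ht1 : 1 ≤ t := by linarith
  have hlog2 := ri_log2
  have hlt : Real.log 2 ≤ Real.log t := Real.log_le_log (by norm_num) ht
  have hlt' : 69 / 100 ≤ Real.log t := hlog2.trans hlt
  have hs1 : s ≠ 1 := by
    intro h
    rw [h, one_im, abs_zero] at htdef
    linarith
  have hts : t ≤ ‖s - 1‖ := by
    have := abs_im_le_norm (s - 1)
    rwa [sub_im, one_im, sub_zero, ← htdef] at this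
  -- the cut off
  obtain ⟨N, hN⟩ : ∃ N : ℕ, N = ⌈t ^ 2⌉₊ := ⟨_, rfl⟩
  have hN1 : t ^ 2 ≤ N := by
    rw [hN]
    exact Nat.le_ceil _
  have hN2 : (N : ℝ) ≤ 2 * t ^ 2 := by
    rw [hN]
    have := (Nat.ceil_lt_add_one (by positivity : 0 ≤ t ^ 2)).le
    nlinarith
  have hN3 : (N : ℝ) ≤ t ^ (3 : ℝ) := by
    have h1 : t ^ (3 : ℝ) = t ^ 2 * t := by
      rw [show (3 : ℝ) = ((3 : ℕ) : ℝ) by norm_num, Real.rpow_natCast]
      ring
    rw [h1]
    nlinarith [sq_nonneg t]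
  have hN0 : (0 : ℝ) < N := by
    have : 0 < t ^ 2 := by positivity
    linarith
  have hN1' : 1 ≤ N := by
    have : 0 < N := by exact_mod_cast hN0
    omega
  have hNr : (1 : ℝ) ≤ N := by exact_mod_cast hN1'
  have hsqrtN : (N : ℝ) ^ (1 / 2 : ℝ) ≤ 2 * t := by
    rw [← Real.sqrt_eq_rpow, Real.sqrt_le_left (by positivity)]
    nlinarith
  have hlogN : Real.log N ≤ 3 * Real.log t := by
    have h1 : Real.log N ≤ Real.log (2 * t ^ 2) := Real.log_le_log hN0 hN2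
    rw [Real.log_mul (by norm_num) (by positivity), Real.log_pow] at h1
    push_cast at h1
    linarith
  have hlogN0 : 0 ≤ Real.log N := Real.log_natCast_nonneg N
  -- the two error terms
  have hE1 : (N : ℝ) ^ (1 - s.re) / ‖s - 1‖ ≤ 2 := by
    rw [div_le_iff₀ (by linarith)]
    calc (N : ℝ) ^ (1 - s.re) ≤ (N : ℝ) ^ (1 / 2 : ℝ) :=
          Real.rpow_le_rpow_of_exponent_le hNr (by linarith)
      _ ≤ 2 * t := hsqrtN
      _ ≤ 2 * ‖s - 1‖ := by linarith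
  have hE2 : (‖s‖ / s.re) * (N : ℝ) ^ (-s.re) ≤ 3 := by
    have h1 : ‖s‖ / s.re ≤ 3 * t := by
      rw [div_le_iff₀ hσ0]
      have := norm_le_abs_re_add_abs_im s
      rw [abs_of_nonneg hσ0.le, ← htdef] at this
      nlinarith
    have h2 : (N : ℝ) ^ (-s.re) ≤ t⁻¹ := by
      calc (N : ℝ) ^ (-s.re) ≤ (N : ℝ) ^ (-(1 / 2) : ℝ) :=
            Real.rpow_le_rpow_of_exponent_le hNr (by linarith)
        _ ≤ (t ^ 2) ^ (-(1 / 2) : ℝ) :=
            Real.rpow_le_rpow_of_nonpos (by positivity) hN1 (by norm_num)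
        _ = t⁻¹ := by
            rw [← Real.rpow_natCast t 2, ← Real.rpow_mul ht0.le, ← Real.rpow_neg_one]
            norm_num
    calc (‖s‖ / s.re) * (N : ℝ) ^ (-s.re) ≤ 3 * t * t⁻¹ := by gcongr
      _ = 3 := by field_simp
  have hap := ri_approx hσ0 hs1 hN1'
  rcases le_or_gt 1 s.re with h1σ | h1σ
  · have h1 := ri_right h1σ N hN1'
    have h2 : max (1 - s.re) 0 = 0 := max_eq_right (by linarith)
    rw [h2, Real.zero_rpow (by norm_num), mul_zero, Real.rpow_zero, mul_one]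
    nlinarith
  · have h2 : max (1 - s.re) 0 = 1 - s.re := max_eq_left (by linarith)
    rw [h2]
    obtain ⟨Z, hZ⟩ : ∃ Z : ℝ, Z = t ^ (3 / √c * (1 - s.re) ^ (3 / 2 : ℝ)) := ⟨_, rfl⟩
    have hZ1 : 1 ≤ Z := by
      rw [hZ]
      apply Real.one_le_rpow ht1
      have : 0 < 1 - s.re := by linarith
      positivity
    rw [← hZ]
    -- the blocks
    have hblock : ∀ A B : ℕ, 1 ≤ A → A ≤ B → B ≤ 2 * A → A ≤ N →
        ‖∑ n ∈ Finset.Icc A B, (n : ℂ) ^ (-s)‖ ≤ C * (Z + 2) := by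
      intro A B hA1 hAB hB hAN
      have hAp : (0 : ℝ) < A := by exact_mod_cast hA1
      have hA1r : (1 : ℝ) ≤ A := by exact_mod_cast hA1
      have hANr : (A : ℝ) ≤ N := by exact_mod_cast hAN
      obtain ⟨τ, hτ⟩ : ∃ τ : ℝ, τ = min 1 (Real.log A / Real.log t) := ⟨_, rfl⟩
      have h4 := ri_block (s := s) hσ0.le (M := C * ((A : ℝ) ^ (1 - c * τ ^ 2) + A / t)) hA1 hAB (by
        intro m hm1 hm2
        have h3 := hz s.im A m hA1 hm1 (by omega) (by rw [← htdef]; exact ht)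
        rw [← htdef, ← hτ] at h3
        exact h3)
      refine h4.trans ?_
      have h5 : (A : ℝ) ^ (-s.re) * (A : ℝ) ^ (1 - c * τ ^ 2) ≤ Z := by
        rw [← Real.rpow_add hAp, hZ]
        have h6 := ri_exp (δ := 1 - s.re) hc (by linarith) (by linarith) ht hA1r (hANr.trans hN3)
        rw [← hτ] at h6
        refine le_trans (le_of_eq ?_) h6
        congr 1
        ring
      have h6 : (A : ℝ) ^ (-s.re) * (A / t) ≤ 2 := by
        have h7 : (A : ℝ) ^ (-s.re) * (A / t) = (A : ℝ) ^ (1 - s.re) / t := by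
          have h8 : (A : ℝ) ^ (1 - s.re) = (A : ℝ) ^ (-s.re) * A := by
            nth_rewrite 3 [← Real.rpow_one (A : ℝ)]
            rw [← Real.rpow_add hAp]
            congr 1
            ring
          rw [h8]
          ring
        rw [h7, div_le_iff₀ ht0]
        calc (A : ℝ) ^ (1 - s.re) ≤ (A : ℝ) ^ (1 / 2 : ℝ) :=
              Real.rpow_le_rpow_of_exponent_le hA1r (by linarith)
          _ ≤ (N : ℝ) ^ (1 / 2 : ℝ) := by
              apply Real.rpow_le_rpow hAp.le _ (by norm_num)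
              exact_mod_cast hAN
          _ ≤ 2 * t := hsqrtN
      calc (A : ℝ) ^ (-s.re) * (C * ((A : ℝ) ^ (1 - c * τ ^ 2) + A / t)) =
            C * ((A : ℝ) ^ (-s.re) * (A : ℝ) ^ (1 - c * τ ^ 2) + (A : ℝ) ^ (-s.re) * (A / t)) := by
              ring
        _ ≤ C * (Z + 2) := by gcongr
    have hj : N ≤ 2 ^ (Nat.clog 2 N) * 1 := by
      rw [mul_one]
      exact Nat.le_pow_clog (by norm_num : 1 < 2) N
    have htail := ri_dyadic (fun n => (n : ℂ) ^ (-s)) (by positivity : 0 ≤ C * (Z + 2)) hblock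
      (Nat.clog 2 N) N hj le_rfl
    have hclog : ((Nat.clog 2 N : ℕ) : ℝ) ≤ 6 * Real.log t := by
      have hN2' : 2 ≤ N := by
        have : (2 : ℝ) ≤ N := by nlinarith
        exact_mod_cast this
      have h3 : 2 ^ (Nat.clog 2 N).pred < N := Nat.pow_pred_clog_lt_self (by norm_num) (by omega)
      have h4 : (2 : ℝ) ^ (Nat.clog 2 N).pred ≤ N := by exact_mod_cast h3.le
      have h5 : Real.log ((2 : ℝ) ^ (Nat.clog 2 N).pred) ≤ Real.log N :=
        Real.log_le_log (by positivity) h4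
      rw [Real.log_pow] at h5
      have h6 : ((Nat.clog 2 N : ℕ) : ℝ) ≤ (((Nat.clog 2 N).pred : ℕ) : ℝ) + 1 := by
        have : Nat.clog 2 N ≤ (Nat.clog 2 N).pred + 1 := by
          rw [Nat.pred_eq_sub_one]
          omega
        exact_mod_cast this
      have h7 : (0 : ℝ) ≤ (((Nat.clog 2 N).pred : ℕ) : ℝ) := by positivity
      nlinarith
    have hfin : ‖∑ n ∈ Finset.Ico 1 N, (n : ℂ) ^ (-s)‖ ≤ 6 * Real.log t * (C * (Z + 2)) :=
      htail.trans (mul_le_mul_of_nonneg_right hclog (by positivity))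
    have hCZ : C * (Z + 2) ≤ 3 * C * Z := by nlinarith
    have h9 : 6 * Real.log t * (C * (Z + 2)) ≤ 18 * C * Z * Real.log t := by
      have := mul_le_mul_of_nonneg_left hCZ (by linarith : 0 ≤ 6 * Real.log t)
      linarith
    have h10 : (5 : ℝ) ≤ 16 * Z * Real.log t := by nlinarith
    calc ‖riemannZeta s‖ ≤ 18 * C * Z * Real.log t + 5 := by linarith
      _ ≤ (16 + 18 * C) * Z * Real.log t := by linarith

end Pool.Agent.H48.VR
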